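import Pool.Agent.Lib.HP26.Dec

/-! Coefficients for the decomposition, and its form against a tangential bound. -/

open Real Set MeasureTheory SchwartzMap
open scoped FourierTransform ContDiff SchwartzMap ENNReal

set_option linter.unusedSectionVars false

noncomputable section

namespace Pool.Agent.HP26

variable {E : Type} [NormedAddCommGroup E] [InnerProductSpace ℝ E] [FiniteDimensional ℝ E]
  [MeasurableSpace E] [BorelSpace E]

theorem differentiable_csq : Differentiable ℂ fun z : ℂ => ∑' k : ℕ, z ^ k / ((2 * k).factorial : ℂ) := by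
  intro z
  have h : DifferentiableOn ℂ (fun z : ℂ => ∑' k : ℕ, z ^ k / ((2 * k).factorial : ℂ))
      (Metric.ball 0 (‖z‖ + 1)) := by
    refine Complex.differentiableOn_tsum_of_summable_norm
      (Real.summable_pow_div_factorial (‖z‖ + 1)) (fun k => by fun_prop) Metric.isOpen_ball
      fun k w hw => ?_
    rw [norm_div, norm_pow, Complex.norm_natCast]
    have h1 : (k.factorial : ℝ) ≤ (2 * k).factorial := by
      exact_mod_cast Nat.factorial_le (by omega)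
    have h2 : (0 : ℝ) < k.factorial := by exact_mod_cast k.factorial_pos
    gcongr
    exact (mem_ball_zero_iff.1 hw).le
  exact h.differentiableAt (Metric.isOpen_ball.mem_nhds (mem_ball_zero_iff.2 (lt_add_one _)))

theorem contDiff_cosh_norm (u : ℝ) :
    ContDiff ℝ ∞ fun ξ : E => Complex.cosh ((u * ‖ξ‖ : ℝ) : ℂ) := by
  have h1 : ContDiff ℝ ∞ fun ξ : E => ((u ^ 2 * ‖ξ‖ ^ 2 : ℝ) : ℂ) :=
    Complex.ofRealCLM.contDiff.comp (contDiff_const.mul (contDiff_norm_sq ℝ))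
  have h2 := ((differentiable_csq.contDiff (n := ∞)).restrict_scalars ℝ).comp h1
  refine (congrArg (ContDiff ℝ ∞) (funext fun ξ => ?_)).mp h2
  rw [Function.comp_apply, Complex.cosh_eq_tsum]
  refine tsum_congr fun k => ?_
  rw [pow_mul]
  push_cast
  rw [mul_pow (u : ℂ)]

/-- The Poisson symbols at the heights `1` and `2`. -/
def pm (i : Bool) (ξ : E) : ℂ := (Real.exp (-(2 * π * ((if i then 2 else 1) * ‖ξ‖))) : ℝ)

theorem exists_c_poisson : ∃ c : Bool → E → ℂ, (∀ i, ContDiff ℝ ∞ (c i)) ∧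
    ∀ ξ, ∑ i, c i ξ * pm i ξ = 1 := by
  refine ⟨fun i ξ => if i then -1 else 2 * Complex.cosh ((2 * π * ‖ξ‖ : ℝ) : ℂ), fun i => ?_,
    fun ξ => ?_⟩
  · cases i
    · simpa using contDiff_const.mul (contDiff_cosh_norm (E := E) (2 * π))
    · simpa using contDiff_const
  · simp only [Fintype.sum_bool, pm, if_true, Bool.false_eq_true, if_false, one_mul,
      Complex.two_cosh, Complex.ofReal_exp, add_mul, ← Complex.exp_add]
    push_cast
    rw [add_neg_cancel, Complex.exp_zero,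
      show -(2 * (π : ℂ) * ‖ξ‖) + -(2 * π * ‖ξ‖) = -(2 * π * (2 * ‖ξ‖)) by ring]
    ring

theorem exists_c_smooth {m : E → ℂ} (hm : ContDiff ℝ ∞ m) (h0 : m 0 = 1) :
    ∃ (c : E → ℂ) (r : ℝ), ContDiff ℝ ∞ c ∧ 0 < r ∧ ∀ ξ, ‖ξ‖ ≤ r → c ξ * m ξ = 1 := by
  obtain ⟨δ, hδ, h1⟩ := Metric.continuous_iff.1 hm.continuous 0 1 one_pos
  let τ : ContDiffBump (0 : E) := ⟨δ / 2, δ, by positivity, by linarith⟩
  have h2 : ∀ ξ, 1 + (τ ξ : ℂ) * (m ξ - 1) ≠ 0 := fun ξ h => by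
    have h3 : ‖(τ ξ : ℂ) * (m ξ - 1)‖ = 1 := by
      rw [eq_neg_of_add_eq_zero_right h, norm_neg, norm_one]
    rcases lt_or_ge (dist ξ 0) δ with h4 | h4
    · have h5 := h1 ξ h4
      rw [h0, dist_eq_norm] at h5
      rw [norm_mul, Complex.norm_real, Real.norm_of_nonneg τ.nonneg] at h3
      have := mul_le_of_le_one_left (norm_nonneg (m ξ - 1)) (τ.le_one (x := ξ))
      linarith
    · rw [τ.zero_of_le_dist h4] at h3
      simp at h3
  refine ⟨fun ξ => (1 + (τ ξ : ℂ) * (m ξ - 1))⁻¹, δ / 2, ?_, by positivity, fun ξ h => ?_⟩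
  · exact (contDiff_const.add ((Complex.ofRealCLM.contDiff.comp τ.contDiff).mul
      (hm.sub contDiff_const))).inv h2
  · have h3 := h2 ξ
    have h4 : τ ξ = 1 := τ.one_of_mem_closedBall (mem_closedBall_zero_iff.2 h)
    simp only [h4, Complex.ofReal_one, one_mul, add_sub_cancel] at h3 ⊢
    exact inv_mul_cancel₀ h3

theorem lint_lt_top {c : ℕ} (hc : Module.finrank ℝ E < c) :
    ∫⁻ y : E, ENNReal.ofReal (((1 + ‖y‖) ^ c)⁻¹) < ⊤ := by
  have h := finite_integral_one_add_norm (μ := (volume : Measure E)) (r := c) (mod_cast hc)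
  refine (lintegral_congr fun y => ?_).trans_lt h
  rw [Real.rpow_neg (by positivity), Real.rpow_natCast]

/-- The decomposition against a tangential bound. -/
theorem dec_tan {ι : Type} [Fintype ι] (m c : ι → E → ℂ) (hc : ∀ i, ContDiff ℝ ∞ (c i)) {r : ℝ}
    (hr : 0 < r) (h1 : ∀ ξ, ‖ξ‖ ≤ r → ∑ i, c i ξ * m i ξ = 1) (A : ℕ) :
    ∃ K : ℝ, 0 ≤ K ∧ ∀ (σ : 𝓢(E, ℂ)) (g : E → ℂ) (t : ℝ), 0 < t →
      Integrable (fun ξ => σ (t • ξ) * g ξ) →
      (∀ i (s : ℝ), 0 < s → Integrable fun ξ => m i (s • ξ) * g ξ) → ∀ (x : E) (Λ : ℝ≥0∞),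
      (∀ i (s : ℝ), 0 < s → s ≤ t → ∀ y, ‖𝓕⁻ (fun ξ => m i (s • ξ) * g ξ) y‖ₑ ≤
        ENNReal.ofReal ((1 + ‖y - x‖ / s) ^ A) * Λ) →
      ‖𝓕⁻ (fun ξ => σ (t • ξ) * g ξ) x‖ₑ ≤
        ENNReal.ofReal (K * sz (A + (Module.finrank ℝ E + 1)) (A + 1) σ) * Λ := by
  obtain ⟨K, hK0, hK⟩ := dec m c hc hr h1 (A + (Module.finrank ℝ E + 1)) (A + 1)
  set J := ∫⁻ y : E, ENNReal.ofReal (((1 + ‖y‖) ^ (Module.finrank ℝ E + 1))⁻¹) with hJ
  have hJt : J ≠ ⊤ := (lint_lt_top (Nat.lt_succ_self _)).ne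
  refine ⟨K * (Fintype.card ι * J.toReal * 2), by positivity, fun σ g t ht hg hm x Λ hΛ => ?_⟩
  have hs : ∀ k : ℕ, 0 < ((2 : ℝ) ^ k)⁻¹ * t := fun k => by positivity
  have hS := sz_nonneg (A + (Module.finrank ℝ E + 1)) (A + 1) σ
  refine (hK σ g t hg (fun i k => by simpa only [smul_smul] using hm i _ (hs k)) x).trans ?_
  set S := sz (A + (Module.finrank ℝ E + 1)) (A + 1) σ
  have h2 : ∀ (k : ℕ) (i : ι), ∫⁻ y, ENNReal.ofReal (((1 + ‖y‖) ^ (A + (Module.finrank ℝ E + 1)))⁻¹) *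
      ‖𝓕⁻ (fun ξ => m i (((2 : ℝ) ^ k)⁻¹ • t • ξ) * g ξ) (x + t • y)‖ₑ ≤
      ENNReal.ofReal (((2 : ℝ) ^ k) ^ A) * Λ * J := fun k i => by
    have h6 : (1 : ℝ) ≤ 2 ^ k := one_le_pow₀ one_le_two
    rw [hJ, ← lintegral_const_mul _ (by fun_prop)]
    refine lintegral_mono fun y => ?_
    simp only [smul_smul]
    refine (mul_le_mul_right (hΛ i _ (hs k)
      (mul_le_of_le_one_left ht.le (inv_le_one_of_one_le₀ h6)) _) _).trans ?_
    rw [← mul_assoc, mul_right_comm _ Λ, ← ENNReal.ofReal_mul (by positivity),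
      ← ENNReal.ofReal_mul (by positivity)]
    refine mul_le_mul_left (ENNReal.ofReal_le_ofReal ?_) _
    have h7 : 1 + ‖x + t • y - x‖ / (((2 : ℝ) ^ k)⁻¹ * t) ≤ 2 ^ k * (1 + ‖y‖) := by
      rw [add_sub_cancel_left, norm_smul, Real.norm_of_nonneg ht.le,
        show t * ‖y‖ / (((2 : ℝ) ^ k)⁻¹ * t) = 2 ^ k * ‖y‖ by field_simp]
      linarith
    refine (mul_le_mul_of_nonneg_left (pow_le_pow_left₀ (by positivity) h7 A)
      (by positivity)).trans_eq ?_
    rw [mul_pow, pow_add (1 + ‖y‖)]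
    field_simp
  calc _ ≤ ∑' k : ℕ, ENNReal.ofReal (K * S * Fintype.card ι * J.toReal) * Λ * 2⁻¹ ^ k := by
        refine ENNReal.tsum_le_tsum fun k => ?_
        refine (Finset.sum_le_sum fun i _ => mul_le_mul_right (h2 k i) _).trans_eq ?_
        have h8 : (2⁻¹ : ℝ≥0∞) ^ k = ENNReal.ofReal ((2 ^ k)⁻¹) := by
          rw [ENNReal.ofReal_inv_of_pos (by positivity), ENNReal.ofReal_pow zero_le_two,
            ENNReal.ofReal_ofNat, ENNReal.inv_pow]
        rw [Finset.sum_const, Finset.card_univ, nsmul_eq_mul, h8, ← ENNReal.ofReal_natCast,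
          ← ENNReal.ofReal_toReal hJt, ENNReal.toReal_ofReal ENNReal.toReal_nonneg,
          mul_right_comm _ Λ, mul_right_comm _ Λ, ← mul_assoc, ← mul_assoc,
          ← ENNReal.ofReal_mul (by positivity), ← ENNReal.ofReal_mul (by positivity),
          ← ENNReal.ofReal_mul (by positivity), ← ENNReal.ofReal_mul (by positivity)]
        congr 2
        rw [pow_succ ((2 : ℝ) ^ k)]
        field_simp
    _ = _ := by
        rw [ENNReal.tsum_mul_left, ENNReal.tsum_geometric, ENNReal.one_sub_inv_two, inv_inv,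
          mul_right_comm, ← ENNReal.ofReal_ofNat 2, ← ENNReal.ofReal_mul (by positivity)]
        congr 2
        ring

theorem sz_le (a M : ℕ) : ∃ C : ℝ, 0 ≤ C ∧ ∀ σ : 𝓢(E, ℂ), sz a M σ ≤
    C * (Finset.Iic (M + (Module.finrank ℝ E + 1), a)).sup (schwartzSeminormFamily ℂ E ℂ) σ := by
  have hi : Integrable fun y : E => ((1 + ‖y‖) ^ (Module.finrank ℝ E + 1))⁻¹ := by
    have h := integrable_one_add_norm (μ := (volume : Measure E))
      (r := (Module.finrank ℝ E + 1 : ℕ)) (by push_cast; linarith)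
    refine h.congr (.of_forall fun y => ?_)
    simp only
    rw [Real.rpow_neg (by positivity), Real.rpow_natCast]
  have hJ : 0 ≤ ∫ y : E, ((1 + ‖y‖) ^ (Module.finrank ℝ E + 1))⁻¹ :=
    integral_nonneg fun y => by positivity
  refine ⟨(a + 1) * (2 ^ (M + (Module.finrank ℝ E + 1)) *
    ∫ y : E, ((1 + ‖y‖) ^ (Module.finrank ℝ E + 1))⁻¹), by positivity, fun σ => ?_⟩
  set Q := (Finset.Iic (M + (Module.finrank ℝ E + 1), a)).sup (schwartzSeminormFamily ℂ E ℂ) σ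
    with hQ
  calc sz a M σ ≤ ∑ j ∈ Finset.range (a + 1), 2 ^ (M + (Module.finrank ℝ E + 1)) * Q *
        ∫ y : E, ((1 + ‖y‖) ^ (Module.finrank ℝ E + 1))⁻¹ :=
        Finset.sum_le_sum fun j hj => by
          rw [← integral_const_mul]
          refine integral_mono (integrable_w σ M j) (hi.const_mul _) fun y => ?_
          have h := one_add_le_sup_seminorm_apply (𝕜 := ℂ)
            (m := (M + (Module.finrank ℝ E + 1), a)) le_rfl
            (Nat.lt_succ_iff.1 (Finset.mem_range.1 hj)) σ y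
          simp only
          rw [← div_eq_mul_inv, le_div_iff₀ (by positivity), mul_right_comm, ← pow_add]
          exact h
    _ = _ := by
        rw [Finset.sum_const, Finset.card_range, nsmul_eq_mul]
        push_cast
        ring

/-- The size of the image of a Schwartz function under a continuous linear map, such as the
Fourier transform, is bounded by finitely many seminorms. -/
theorem sz_map_le (T : 𝓢(E, ℂ) →L[ℂ] 𝓢(E, ℂ)) (a M : ℕ) : ∃ (N : ℕ) (C : ℝ), 0 ≤ C ∧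
    ∀ (ψ : 𝓢(E, ℂ)) (B : ℝ), (∀ k ≤ N, ∀ j ≤ N, ∀ v, ‖v‖ ^ k * ‖iteratedFDeriv ℝ j ψ v‖ ≤ B) →
      sz a M (T ψ) ≤ C * B := by
  obtain ⟨C, hC0, hC⟩ := sz_le (E := E) a M
  obtain ⟨s, D, -, hD⟩ := Seminorm.bound_of_continuous (schwartz_withSeminorms ℂ E ℂ)
    (((Finset.Iic (M + (Module.finrank ℝ E + 1), a)).sup (schwartzSeminormFamily ℂ E ℂ)).comp
      T.toLinearMap)
    ((Seminorm.continuous_finsetSup fun i _ =>
      (schwartz_withSeminorms ℂ E ℂ).continuous_seminorm i).comp T.continuous)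
  refine ⟨s.sup fun p => max p.1 p.2, C * D, by positivity, fun ψ B hB => ?_⟩
  have hB0 : 0 ≤ B := le_trans (by positivity) (hB 0 (Nat.zero_le _) 0 (Nat.zero_le _) 0)
  refine (hC _).trans ?_
  rw [mul_assoc]
  refine mul_le_mul_of_nonneg_left ((hD ψ).trans ?_) hC0
  refine mul_le_mul_of_nonneg_left (Seminorm.finset_sup_apply_le hB0 fun p hp => ?_) D.2
  have h := Finset.le_sup (f := fun p : ℕ × ℕ => max p.1 p.2) hp
  exact seminorm_le_bound ℂ p.1 p.2 ψ hB0
    (hB _ ((le_max_left _ _).trans h) _ ((le_max_right _ _).trans h))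

/-- The same bound for functions supported in a fixed ball. -/
theorem sz_map_le_ball (T : 𝓢(E, ℂ) →L[ℂ] 𝓢(E, ℂ)) (a M : ℕ) (ρ : ℝ) : ∃ (N : ℕ) (C : ℝ), 0 ≤ C ∧
    ∀ (ψ : 𝓢(E, ℂ)) (B : ℝ), (∀ v, ρ < ‖v‖ → ψ v = 0) →
      (∀ j ≤ N, ∀ v, ‖iteratedFDeriv ℝ j ψ v‖ ≤ B) → sz a M (T ψ) ≤ C * B := by
  obtain ⟨N, C, hC0, hC⟩ := sz_map_le T a M
  have h1 : (1 : ℝ) ≤ max 1 ρ := le_max_left _ _
  refine ⟨N, C * max 1 ρ ^ N, by positivity, fun ψ B hs hB => ?_⟩
  have hB0 : 0 ≤ B := (norm_nonneg _).trans (hB 0 (Nat.zero_le _) 0)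
  rw [mul_assoc]
  refine hC ψ _ fun k hk j hj v => ?_
  rcases le_or_gt ‖v‖ ρ with h | h
  · exact mul_le_mul ((pow_le_pow_left₀ (norm_nonneg _) (h.trans (le_max_right 1 ρ)) k).trans
      (pow_le_pow_right₀ h1 hk)) (hB j hj v) (norm_nonneg _) (by positivity)
  · have h2 : tsupport (ψ : E → ℂ) ⊆ {v | ‖v‖ ≤ ρ} :=
      closure_minimal (fun w hw => not_lt.1 fun h3 => hw (hs w h3))
        (isClosed_le continuous_norm continuous_const)
    have h3 : iteratedFDeriv ℝ j ψ v = 0 := by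
      by_contra h4
      exact not_le.2 h (h2 (support_iteratedFDeriv_subset j h4))
    rw [h3, norm_zero, mul_zero]
    positivity

end Pool.Agent.HP26
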