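import Mathlib

/-! Decomposition of a Schwartz multiplier along the dyadic dilates of a family of multipliers. -/

open Real Set MeasureTheory SchwartzMap
open scoped FourierTransform ContDiff SchwartzMap

set_option linter.unusedSectionVars false

noncomputable section

namespace Pool.Agent.HP26

variable {E : Type} [NormedAddCommGroup E] [InnerProductSpace ℝ E] [FiniteDimensional ℝ E]
  [MeasurableSpace E] [BorelSpace E]

theorem exists_bound {κ : E → ℂ} (hκ : ContDiff ℝ ∞ κ) (hc : HasCompactSupport κ) (a : ℕ) :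
    ∃ K : ℝ, 0 ≤ K ∧ ∀ j ≤ a, ∀ ξ, ‖iteratedFDeriv ℝ j κ ξ‖ ≤ K := by
  have h : ∀ j : ℕ, ∃ K : ℝ, 0 ≤ K ∧ ∀ ξ, ‖iteratedFDeriv ℝ j κ ξ‖ ≤ K := fun j => by
    obtain ⟨K, hK⟩ := (hκ.continuous_iteratedFDeriv (m := j) (mod_cast le_top)).bounded_above_of_compact_support
      (hc.iteratedFDeriv j)
    exact ⟨K, (norm_nonneg _).trans (hK 0), hK⟩
  choose K h0 hK using h
  refine ⟨∑ j ∈ Finset.range (a + 1), K j, Finset.sum_nonneg fun j _ => h0 j, fun j hj ξ => ?_⟩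
  exact (hK j ξ).trans (Finset.single_le_sum (fun j _ => h0 j)
    (Finset.mem_range.2 (Nat.lt_succ_of_le hj)))

theorem dil_le {κ : E → ℂ} (hκ : ContDiff ℝ ∞ κ) {l : ℝ} (h0 : 0 ≤ l) (h1 : l ≤ 1) (j : ℕ) (ξ : E) :
    ‖iteratedFDeriv ℝ j (fun ξ => κ (l • ξ)) ξ‖ ≤ ‖iteratedFDeriv ℝ j κ (l • ξ)‖ := by
  rw [iteratedFDeriv_comp_const_smul l (hκ.of_le (mod_cast le_top)), norm_smul, norm_pow,
    Real.norm_of_nonneg h0]
  exact mul_le_of_le_one_left (norm_nonneg _) (pow_le_one₀ h0 h1)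

theorem integrable_w (σ : 𝓢(E, ℂ)) (M l : ℕ) :
    Integrable fun ξ => (1 + ‖ξ‖) ^ M * ‖iteratedFDeriv ℝ l σ ξ‖ := by
  simp only [add_comm (1 : ℝ), add_pow, one_pow, mul_one, Finset.sum_mul]
  refine integrable_finsetSum _ fun i _ => ?_
  simp only [mul_right_comm _ (M.choose i : ℝ)]
  exact (σ.integrable_pow_mul_iteratedFDeriv volume i l).mul_const _

/-- The main estimate for one piece. -/
theorem core {κ : E → ℂ} (hκ : ContDiff ℝ ∞ κ) (hc : HasCompactSupport κ) (a M : ℕ) :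
    ∃ K : ℝ, 0 ≤ K ∧ ∀ (σ : 𝓢(E, ℂ)) (l R : ℝ), 0 ≤ l → l ≤ 1 → 0 < R →
      (∀ ξ, l • ξ ∈ tsupport κ → R ≤ 1 + ‖ξ‖) → ∀ x,
      (1 + ‖x‖) ^ a * ‖𝓕 (fun ξ => σ ξ * κ (l • ξ)) x‖ ≤
        K * (R ^ M)⁻¹ * ∑ j ∈ Finset.range (a + 1),
          ∫ ξ, (1 + ‖ξ‖) ^ M * ‖iteratedFDeriv ℝ j σ ξ‖ := by
  obtain ⟨K, hK0, hK⟩ := exists_bound hκ hc a
  refine ⟨2 ^ a * (2 ^ a * ((a + 1) * (2 ^ a * K))), by positivity, fun σ l R h0 h1 hR hs x => ?_⟩
  have hl : ContDiff ℝ ∞ fun ξ : E => κ (l • ξ) := hκ.comp (contDiff_const_smul l)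
  have hg : ContDiff ℝ ∞ fun ξ => σ ξ * κ (l • ξ) := (σ.smooth ⊤).mul hl
  set S : E → ℝ := fun ξ => ∑ j ∈ Finset.range (a + 1), (1 + ‖ξ‖) ^ M * ‖iteratedFDeriv ℝ j σ ξ‖
    with hS
  have hSi : Integrable S := integrable_finsetSum _ fun j _ => integrable_w σ M j
  have hb : ∀ i ≤ a, ∀ ξ, ‖iteratedFDeriv ℝ i (fun ξ => κ (l • ξ)) ξ‖ ≤
      K * ((R ^ M)⁻¹ * (1 + ‖ξ‖) ^ M) := fun i hi ξ => by
    refine (dil_le hκ h0 h1 i ξ).trans ?_
    by_cases h : l • ξ ∈ tsupport κ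
    · refine (hK i hi _).trans (le_mul_of_one_le_right hK0 ?_)
      rw [← div_eq_inv_mul, one_le_div (pow_pos hR M)]
      exact pow_le_pow_left₀ hR.le (hs ξ h) M
    · have : iteratedFDeriv ℝ i κ (l • ξ) = 0 := by
        by_contra h2
        exact h (support_iteratedFDeriv_subset i h2)
      rw [this, norm_zero]
      positivity
  have hp : ∀ j ≤ a, ∀ ξ, ‖iteratedFDeriv ℝ j (fun ξ => σ ξ * κ (l • ξ)) ξ‖ ≤
      2 ^ a * K * (R ^ M)⁻¹ * S ξ := fun j hj ξ => by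
    refine (norm_iteratedFDeriv_mul_le (σ.smooth ⊤) hl ξ (mod_cast le_top)).trans ?_
    rw [hS, Finset.mul_sum]
    refine le_trans (Finset.sum_le_sum fun i hi => ?_)
      (Finset.sum_le_sum_of_subset_of_nonneg
        (Finset.range_subset_range.2 (Nat.succ_le_succ hj)) fun i _ _ => by positivity)
    have h2 : (j.choose i : ℝ) ≤ 2 ^ a := by
      exact_mod_cast (Nat.choose_le_two_pow j i).trans (Nat.pow_le_pow_right two_pos hj)
    calc (j.choose i : ℝ) * ‖iteratedFDeriv ℝ i σ ξ‖ *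
          ‖iteratedFDeriv ℝ (j - i) (fun ξ => κ (l • ξ)) ξ‖
        ≤ 2 ^ a * ‖iteratedFDeriv ℝ i σ ξ‖ * (K * ((R ^ M)⁻¹ * (1 + ‖ξ‖) ^ M)) := by
          gcongr
          exact hb _ ((Nat.sub_le j i).trans hj) ξ
      _ = _ := by ring
  have hi : ∀ j ≤ a, Integrable fun ξ =>
      ‖iteratedFDeriv ℝ j (fun ξ => σ ξ * κ (l • ξ)) ξ‖ := fun j hj =>
    (hSi.const_mul (2 ^ a * K * (R ^ M)⁻¹)).mono'
      (hg.continuous_iteratedFDeriv (mod_cast le_top)).norm.aestronglyMeasurable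
      (.of_forall fun ξ => by rw [norm_norm]; exact hp j hj ξ)
  have hT : ∑ j ∈ Finset.range (a + 1), ∫ ξ, ‖iteratedFDeriv ℝ j (fun ξ => σ ξ * κ (l • ξ)) ξ‖ ≤
      (a + 1) * (2 ^ a * K) * (R ^ M)⁻¹ * ∫ ξ, S ξ :=
    calc _ ≤ ∑ j ∈ Finset.range (a + 1), 2 ^ a * K * (R ^ M)⁻¹ * ∫ ξ, S ξ :=
        Finset.sum_le_sum fun j hj => by
          have hj' := Nat.lt_succ_iff.1 (Finset.mem_range.1 hj)
          rw [← integral_const_mul]
          exact integral_mono (hi j hj') (hSi.const_mul _) (hp j hj')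
      _ = _ := by
        rw [Finset.sum_const, Finset.card_range, nsmul_eq_mul]
        push_cast
        ring
  have h : ∀ c ≤ a, ‖x‖ ^ c * ‖𝓕 (fun ξ => σ ξ * κ (l • ξ)) x‖ ≤
      2 ^ a * ((a + 1) * (2 ^ a * K) * (R ^ M)⁻¹ * ∫ ξ, S ξ) := fun c hca => by
    have h := Real.pow_mul_norm_iteratedFDeriv_fourier_le (K := (0 : ℕ)) (N := a)
      (hg.of_le (mod_cast le_top)) (fun k j hk hj => by
        obtain rfl : k = 0 := by simpa using hk
        simpa using hi j (mod_cast hj)) (k := 0) (n := c) le_rfl (mod_cast hca) x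
    simp only [norm_iteratedFDeriv_zero, pow_zero, Nat.cast_zero, mul_zero, zero_add, one_mul,
      Finset.range_one, Finset.sum_product, Finset.sum_singleton] at h
    refine h.trans (mul_le_mul (pow_le_pow_right₀ one_le_two hca) (le_trans ?_ hT)
      (Finset.sum_nonneg fun j _ => integral_nonneg fun _ => norm_nonneg _) (by positivity))
    exact Finset.sum_le_sum_of_subset_of_nonneg
      (Finset.range_subset_range.2 (Nat.succ_le_succ hca))
      fun j _ _ => integral_nonneg fun _ => norm_nonneg _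
  rw [← integral_finsetSum _ fun j _ => integrable_w σ M j]
  have h3 : ∃ c ≤ a, (1 + ‖x‖) ^ a ≤ 2 ^ a * ‖x‖ ^ c := by
    rcases le_total ‖x‖ 1 with h4 | h4
    · refine ⟨0, a.zero_le, ?_⟩
      rw [pow_zero, mul_one]
      exact pow_le_pow_left₀ (by positivity) (by linarith) a
    · refine ⟨a, le_rfl, ?_⟩
      rw [← mul_pow]
      exact pow_le_pow_left₀ (by positivity) (by linarith) a
  obtain ⟨c, hca, h3⟩ := h3
  refine (mul_le_mul_of_nonneg_right h3 (norm_nonneg _)).trans ?_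
  rw [mul_assoc]
  refine (mul_le_mul_of_nonneg_left (h c hca) (by positivity)).trans_eq ?_
  simp only [hS]
  ring

/-- A Schwartz multiplier is an average of translations. -/
theorem piece (b : 𝓢(E, ℂ)) {g : E → ℂ} (hg : Integrable g) (t : ℝ) (x : E) :
    𝓕⁻ (fun ξ => b (t • ξ) * g ξ) x = ∫ y, 𝓕 (b : E → ℂ) y * 𝓕⁻ g (x + t • y) := by
  have hb : Integrable (𝓕 (b : E → ℂ)) := (𝓕 b : 𝓢(E, ℂ)).integrable
  have h1 : ∀ η, b η = ∫ y, 𝐞 (inner ℝ y η) • 𝓕 (b : E → ℂ) y := fun η => by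
    rw [← Real.fourierInv_eq, b.continuous.fourierInv_fourier_eq b.integrable hb]
  have h2 : Integrable (Function.uncurry fun (ξ y : E) =>
      (𝐞 (inner ℝ ξ (x + t • y)) : ℂ) * (g ξ * 𝓕 (b : E → ℂ) y)) (volume.prod volume) := by
    refine (hg.mul_prod hb).bdd_mul (c := 1) ?_ (.of_forall fun p => (Circle.norm_coe _).le)
    refine Continuous.aestronglyMeasurable ?_
    exact continuous_subtype_val.comp (Real.continuous_fourierChar.comp (by fun_prop))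
  rw [Real.fourierInv_eq]
  calc ∫ ξ, 𝐞 (inner ℝ ξ x) • (b (t • ξ) * g ξ)
      = ∫ ξ, ∫ y, (𝐞 (inner ℝ ξ (x + t • y)) : ℂ) * (g ξ * 𝓕 (b : E → ℂ) y) := by
        congr 1
        ext ξ
        rw [h1, Circle.smul_def, smul_eq_mul, ← integral_mul_const, ← integral_const_mul]
        congr 1
        ext y
        rw [inner_add_right, AddChar.map_add_eq_mul, Circle.coe_mul, Circle.smul_def, smul_eq_mul,
          real_inner_smul_right, real_inner_smul_right, real_inner_comm ξ y]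
        ring
    _ = _ := by
        rw [integral_integral_swap h2]
        congr 1
        ext y
        rw [Real.fourierInv_eq, ← integral_const_mul]
        congr 1
        ext ξ
        rw [Circle.smul_def, smul_eq_mul]
        ring

/-- The size of a symbol. -/
def sz (a M : ℕ) (σ : 𝓢(E, ℂ)) : ℝ :=
  ∑ j ∈ Finset.range (a + 1), ∫ ξ, (1 + ‖ξ‖) ^ M * ‖iteratedFDeriv ℝ j σ ξ‖

theorem sz_nonneg (a M : ℕ) (σ : 𝓢(E, ℂ)) : 0 ≤ sz a M σ :=
  Finset.sum_nonneg fun _ _ => integral_nonneg fun _ => by positivity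

theorem piece_le {κ : E → ℂ} (hκ : ContDiff ℝ ∞ κ) (hc : HasCompactSupport κ) (a M : ℕ) :
    ∃ K : ℝ, 0 ≤ K ∧ ∀ (σ : 𝓢(E, ℂ)) (l R : ℝ), 0 < l → l ≤ 1 → 0 < R →
      (∀ ξ, l • ξ ∈ tsupport κ → R ≤ 1 + ‖ξ‖) → ∀ g : E → ℂ, Integrable g → ∀ (t : ℝ) (x : E),
      ‖𝓕⁻ (fun ξ => σ (t • ξ) * κ (l • t • ξ) * g ξ) x‖ₑ ≤
        ENNReal.ofReal (K * (R ^ M)⁻¹ * sz a M σ) *
          ∫⁻ y, ENNReal.ofReal (((1 + ‖y‖) ^ a)⁻¹) * ‖𝓕⁻ g (x + t • y)‖ₑ := by
  obtain ⟨K, hK0, hK⟩ := core hκ hc a M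
  refine ⟨K, hK0, fun σ l R h0 h1 hR hs g hg t x => ?_⟩
  have hl : ContDiff ℝ ∞ fun ξ : E => κ (l • ξ) := hκ.comp (contDiff_const_smul l)
  have hcl : HasCompactSupport fun ξ : E => κ (l • ξ) :=
    hc.comp_homeomorph (Homeomorph.smulOfNeZero l h0.ne')
  let b : 𝓢(E, ℂ) := HasCompactSupport.toSchwartzMap (f := fun ξ => σ ξ * κ (l • ξ))
    hcl.mul_left ((σ.smooth ⊤).mul hl)
  have hb : (b : E → ℂ) = fun ξ => σ ξ * κ (l • ξ) := rfl
  have h2 := piece b hg t x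
  rw [hb] at h2
  rw [h2, ← lintegral_const_mul' _ _ ENNReal.ofReal_ne_top]
  refine (enorm_integral_le_lintegral_enorm _).trans (lintegral_mono fun y => ?_)
  rw [enorm_mul, ← mul_assoc, ← ENNReal.ofReal_mul
    (mul_nonneg (by positivity) (sz_nonneg a M σ)), ← ofReal_norm]
  refine mul_le_mul_left (ENNReal.ofReal_le_ofReal ?_) _
  rw [← div_eq_mul_inv, le_div_iff₀ (by positivity), mul_comm]
  exact hK σ l R h0.le h1 hR hs y

/-- The decomposition of a Schwartz multiplier along the dilates of a family of multipliers. -/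
theorem dec {ι : Type} [Fintype ι] (m c : ι → E → ℂ) (hc : ∀ i, ContDiff ℝ ∞ (c i)) {r : ℝ}
    (hr : 0 < r) (h1 : ∀ ξ, ‖ξ‖ ≤ r → ∑ i, c i ξ * m i ξ = 1) (a M : ℕ) :
    ∃ K : ℝ, 0 ≤ K ∧ ∀ (σ : 𝓢(E, ℂ)) (g : E → ℂ) (t : ℝ), Integrable (fun ξ => σ (t • ξ) * g ξ) →
      (∀ i (k : ℕ), Integrable fun ξ => m i (((2 : ℝ) ^ k)⁻¹ • t • ξ) * g ξ) → ∀ x,
      ‖𝓕⁻ (fun ξ => σ (t • ξ) * g ξ) x‖ₑ ≤ ∑' k : ℕ, ∑ i,
        ENNReal.ofReal (K * (((2 : ℝ) ^ k) ^ M)⁻¹ * sz a M σ) *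
          ∫⁻ y, ENNReal.ofReal (((1 + ‖y‖) ^ a)⁻¹) *
            ‖𝓕⁻ (fun ξ => m i (((2 : ℝ) ^ k)⁻¹ • t • ξ) * g ξ) (x + t • y)‖ₑ := by
  let τ : ContDiffBump (0 : E) := ⟨r / 2, r, by positivity, by linarith⟩
  have τ1 : ∀ ξ : E, ‖ξ‖ ≤ r / 2 → τ ξ = 1 := fun ξ h =>
    τ.one_of_mem_closedBall (mem_closedBall_zero_iff.2 h)
  have τ0 : ∀ ξ : E, r ≤ ‖ξ‖ → τ ξ = 0 := fun ξ h => τ.zero_of_le_dist (by rwa [dist_zero_right])
  let θ : Bool → E → ℝ := fun b ξ => τ ξ - if b then τ ((2 : ℝ) • ξ) else 0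
  have θ0 : ∀ b ξ, r ≤ ‖ξ‖ → θ b ξ = 0 := fun b ξ h => by
    have : r ≤ ‖(2 : ℝ) • ξ‖ := by
      rw [norm_smul, Real.norm_two]
      linarith
    simp only [θ, τ0 _ h, τ0 _ this, ite_self, sub_self]
  have θs : ∀ b, ContDiff ℝ ∞ (θ b) := fun b => by
    cases b
    · simpa [θ] using τ.contDiff
    · simpa [θ] using τ.contDiff.sub (τ.contDiff.comp (contDiff_const_smul (2 : ℝ)))
  let κ : Bool × ι → E → ℂ := fun p ξ => θ p.1 ξ * c p.2 ξ
  have κs : ∀ p, ContDiff ℝ ∞ (κ p) := fun p =>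
    (Complex.ofRealCLM.contDiff.comp (θs p.1)).mul (hc p.2)
  have κc : ∀ p, HasCompactSupport (κ p) := fun p =>
    HasCompactSupport.intro (isCompact_closedBall (0 : E) r) fun ξ h => by
      simp only [κ, θ0 p.1 ξ (not_le.1 (mt mem_closedBall_zero_iff.2 h)).le, Complex.ofReal_zero,
        zero_mul]
  have κt : ∀ i, tsupport (κ (true, i)) ⊆ {ξ | r / 4 ≤ ‖ξ‖} := fun i => by
    refine closure_minimal (fun ξ h => ?_) (isClosed_le continuous_const continuous_norm)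
    by_contra h2
    have h3 : ‖ξ‖ < r / 4 := not_le.1 h2
    have h4 : ‖(2 : ℝ) • ξ‖ ≤ r / 2 := by
      rw [norm_smul, Real.norm_two]
      linarith
    exact h (by simp [κ, θ, τ1 _ h4, τ1 ξ (by linarith)])
  choose K hK0 hK using fun p => piece_le (κs p) (κc p) a M
  have hr' : 0 < min 1 (r / 4) := lt_min one_pos (by positivity)
  have hKs : 0 ≤ ∑ p, K p := Finset.sum_nonneg fun p _ => hK0 p
  refine ⟨(∑ p, K p) * (min 1 (r / 4) ^ M)⁻¹, by positivity, fun σ g t hg hm x => ?_⟩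
  let b : ℕ → Bool := fun k => decide (k ≠ 0)
  let P : ℕ → ι → E → ℂ := fun k i ξ => σ (t • ξ) * κ (b k, i) (((2 : ℝ) ^ k)⁻¹ • t • ξ) *
    (m i (((2 : ℝ) ^ k)⁻¹ • t • ξ) * g ξ)
  have hP : ∀ k i, Integrable (P k i) := fun k i => by
    obtain ⟨B, hB⟩ := (κs (b k, i)).continuous.bounded_above_of_compact_support (κc _)
    refine (hm i k).bdd_mul (c := SchwartzMap.seminorm ℝ 0 0 σ * B) ?_ (.of_forall fun ξ => ?_)
    · have := (κs (b k, i)).continuous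
      exact Continuous.aestronglyMeasurable (by fun_prop)
    · rw [norm_mul]
      exact mul_le_mul (σ.norm_le_seminorm ℝ _) (hB _) (norm_nonneg _) (apply_nonneg _ _)
  have hk : ∀ k ξ, ∑ i, P k i ξ = θ (b k) (((2 : ℝ) ^ k)⁻¹ • t • ξ) * (σ (t • ξ) * g ξ) :=
    fun k ξ => by
    rcases le_total ‖((2 : ℝ) ^ k)⁻¹ • t • ξ‖ r with h | h
    · rw [← mul_one (_ * (σ (t • ξ) * g ξ)), ← h1 _ h, Finset.mul_sum]
      exact Finset.sum_congr rfl fun i _ => by simp only [P, κ]; ring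
    · simp [P, κ, θ0 _ _ h]
  have hN : ∀ N ξ, ∑ k ∈ Finset.range (N + 1), ∑ i, P k i ξ =
      τ (((2 : ℝ) ^ N)⁻¹ • t • ξ) * (σ (t • ξ) * g ξ) := fun N ξ => by
    induction N with
    | zero => simp [hk, θ, b]
    | succ N ih =>
      have : (2 : ℝ) • ((2 : ℝ) ^ (N + 1))⁻¹ • t • ξ = ((2 : ℝ) ^ N)⁻¹ • t • ξ := by
        rw [smul_smul (2 : ℝ), pow_succ]
        congr 1
        field_simp
      rw [Finset.sum_range_succ, ih, hk]
      simp only [θ, b, ne_eq, Nat.add_eq_zero_iff, one_ne_zero, and_false, not_false_eq_true,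
        decide_true, if_true, this]
      push_cast
      ring
  have hlim : Filter.Tendsto (fun N : ℕ =>
      𝓕⁻ (fun ξ => (τ (((2 : ℝ) ^ N)⁻¹ • t • ξ) : ℂ) * (σ (t • ξ) * g ξ)) x) Filter.atTop
      (nhds (𝓕⁻ (fun ξ => σ (t • ξ) * g ξ) x)) := by
    simp only [Real.fourierInv_eq]
    refine tendsto_integral_of_dominated_convergence _ (fun N => ?_) hg.norm
      (fun N => .of_forall fun ξ => ?_) (.of_forall fun ξ => ?_)
    · refine (Real.continuous_fourierChar.comp (by fun_prop)).aestronglyMeasurable.smul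
        (AEStronglyMeasurable.mul ?_ hg.1)
      have := τ.continuous
      exact Continuous.aestronglyMeasurable (by fun_prop)
    · rw [Circle.norm_smul, norm_mul, Complex.norm_real, Real.norm_of_nonneg τ.nonneg]
      exact mul_le_of_le_one_left (norm_nonneg _) τ.le_one
    · have h2 : Filter.Tendsto (fun N : ℕ => ((2 : ℝ) ^ N)⁻¹ • t • ξ) Filter.atTop (nhds 0) := by
        simpa using (tendsto_inv_atTop_zero.comp
          (tendsto_pow_atTop_atTop_of_one_lt (one_lt_two (α := ℝ)))).smul_const (t • ξ)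
      refine tendsto_const_nhds.congr' ?_
      filter_upwards [h2.eventually (Metric.closedBall_mem_nhds 0 (half_pos hr))] with N h3
      rw [τ1 _ (mem_closedBall_zero_iff.1 h3)]
      simp
  refine le_of_tendsto' hlim.enorm fun N => ?_
  refine le_trans ?_ (ENNReal.sum_le_tsum (Finset.range (N + 1)))
  have hF : ∀ k i, Integrable fun ξ => 𝐞 (inner ℝ ξ x) • P k i ξ := fun k i =>
    (hP k i).norm.mono' ((Real.continuous_fourierChar.comp (by fun_prop)).aestronglyMeasurable.smul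
      (hP k i).1) (.of_forall fun ξ => (Circle.norm_smul _ _).le)
  have h5 : 𝓕⁻ (fun ξ => (τ (((2 : ℝ) ^ N)⁻¹ • t • ξ) : ℂ) * (σ (t • ξ) * g ξ)) x =
      ∑ k ∈ Finset.range (N + 1), ∑ i, 𝓕⁻ (P k i) x := by
    simp only [Real.fourierInv_eq, ← hN, Finset.smul_sum]
    rw [integral_finsetSum _ fun k _ => integrable_finsetSum _ fun i _ => hF k i]
    exact Finset.sum_congr rfl fun k _ => integral_finsetSum _ fun i _ => hF k i
  rw [h5]
  refine (enorm_sum_le _ _).trans (Finset.sum_le_sum fun k _ =>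
    (enorm_sum_le _ _).trans (Finset.sum_le_sum fun i _ => ?_))
  have h6 : (0 : ℝ) < 2 ^ k := by positivity
  refine (hK (b k, i) σ ((2 : ℝ) ^ k)⁻¹ (2 ^ k * min 1 (r / 4)) (inv_pos.2 h6)
    (inv_le_one_of_one_le₀ (one_le_pow₀ one_le_two)) (by positivity) (fun ξ hξ => ?_) _
    (hm i k) t x).trans ?_
  · rcases eq_or_ne k 0 with rfl | h7
    · rw [pow_zero, one_mul]
      exact (min_le_left _ _).trans (le_add_of_nonneg_right (norm_nonneg _))
    · have h8 : b k = true := by simp [b, h7]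
      rw [h8] at hξ
      have h9 : r / 4 ≤ ‖((2 : ℝ) ^ k)⁻¹ • ξ‖ := κt i hξ
      rw [norm_smul, norm_inv, Real.norm_of_nonneg h6.le, ← div_eq_inv_mul, le_div_iff₀ h6] at h9
      have := mul_le_mul_of_nonneg_left (min_le_right 1 (r / 4)) h6.le
      linarith
  · refine mul_le_mul_left (ENNReal.ofReal_le_ofReal
      (mul_le_mul_of_nonneg_right ?_ (sz_nonneg a M σ))) _
    rw [mul_pow, mul_inv, mul_comm (_ ⁻¹), ← mul_assoc]
    gcongr
    exact Finset.single_le_sum (fun p _ => hK0 p) (Finset.mem_univ _)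

end Pool.Agent.HP26
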